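import Pool.Agent.Helper15.WA.LocDefs
import Pool.Agent.Helper10.GWA.LB

/-!
# MP_ed3816_nt : module RSD (elementary facts on the complete field)
-/

namespace GWA

section RSD

variable {K : Type} [NormedField K] [Algebra GaussianInt K] {π : GaussianInt}

theorem LocHyp.isUltra (h : LocHyp K π) : IsUltrametricDist K :=
  IsUltrametricDist.isUltrametricDist_of_forall_norm_add_le_max_norm h.ultra

theorem LocHyp.coe_ne (h : LocHyp K π) {a : GaussianInt} (ha : a ≠ 0) :
    algebraMap GaussianInt K a ≠ 0 := by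
  have := h.char0
  intro h0
  have h1 : algebraMap GaussianInt K (a * star a) = 0 := by
    rw [map_mul, h0, zero_mul]
  have h2 : a * star a = ((Zsqrtd.norm a : ℤ) : GaussianInt) := (Zsqrtd.norm_eq_mul_conj a).symm
  rw [h2, map_intCast, Int.cast_eq_zero] at h1
  exact ha ((GaussianInt.norm_eq_zero).1 h1)

theorem LocHyp.norm_int_le (h : LocHyp K π) (n : ℤ) : ‖(n : K)‖ ≤ 1 := by
  have := h.isUltra
  exact IsUltrametricDist.norm_intCast_le_one K n

theorem LocHyp.norm_coe_le_one (h : LocHyp K π) (a : GaussianInt) :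
    ‖algebraMap GaussianInt K a‖ ≤ 1 := by
  have hI : ‖II K‖ = 1 := by
    have h1 : ‖II K‖ ^ 2 = 1 := by
      rw [← norm_pow, II_sq, norm_neg, norm_one]
    have h2 : 0 ≤ ‖II K‖ := norm_nonneg _
    nlinarith [sq_nonneg (‖II K‖ - 1)]
  have e : a = ((a.re : ℤ) : GaussianInt) + ((a.im : ℤ) : GaussianInt) * ⟨0, 1⟩ := by
    apply Zsqrtd.ext
    · simp
    · simp
  rw [e, map_add, map_mul, map_intCast, map_intCast]
  refine (h.ultra _ _).trans (max_le (h.norm_int_le _) ?_)
  rw [norm_mul]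
  have h3 : ‖algebraMap GaussianInt K ⟨0, 1⟩‖ = 1 := hI
  rw [h3, mul_one]
  exact h.norm_int_le _

theorem LocHyp.norm_coe_eq_one (h : LocHyp K π) {a : GaussianInt} (ha : ¬ π ∣ a) :
    ‖algebraMap GaussianInt K a‖ = 1 := by
  refine le_antisymm (h.norm_coe_le_one a) ?_
  have hirr : Irreducible π := h.prime.irreducible
  obtain ⟨u, v, huv⟩ := (hirr.coprime_iff_not_dvd).2 ha
  have h1 : algebraMap GaussianInt K u * algebraMap GaussianInt K π +
      algebraMap GaussianInt K v * algebraMap GaussianInt K a = 1 := by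
    rw [← map_mul, ← map_mul, ← map_add, huv, map_one]
  have h2 := h.ultra (algebraMap GaussianInt K u * algebraMap GaussianInt K π)
    (algebraMap GaussianInt K v * algebraMap GaussianInt K a)
  rw [h1, norm_one, norm_mul, norm_mul] at h2
  rcases le_max_iff.1 h2 with h3 | h3
  · exfalso
    have h4 : ‖algebraMap GaussianInt K u‖ * ‖algebraMap GaussianInt K π‖ ≤
        1 * ‖algebraMap GaussianInt K π‖ :=
      mul_le_mul_of_nonneg_right (h.norm_coe_le_one u) (norm_nonneg _)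
    have := h.norm_pi
    linarith
  · have h4 : ‖algebraMap GaussianInt K v‖ * ‖algebraMap GaussianInt K a‖ ≤
        1 * ‖algebraMap GaussianInt K a‖ :=
      mul_le_mul_of_nonneg_right (h.norm_coe_le_one v) (norm_nonneg _)
    linarith

theorem LocHyp.norm_coe_lt_one_iff (h : LocHyp K π) (a : GaussianInt) :
    ‖algebraMap GaussianInt K a‖ < 1 ↔ π ∣ a := by
  constructor
  · intro h1
    by_contra h2
    rw [h.norm_coe_eq_one h2] at h1
    exact lt_irrefl _ h1
  · rintro ⟨b, rfl⟩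
    rw [map_mul, norm_mul]
    have h1 : ‖algebraMap GaussianInt K π‖ * ‖algebraMap GaussianInt K b‖ ≤
        ‖algebraMap GaussianInt K π‖ * 1 :=
      mul_le_mul_of_nonneg_left (h.norm_coe_le_one b) (norm_nonneg _)
    have := h.norm_pi
    linarith

theorem LocHyp.norm_coe_le_pow_iff (h : LocHyp K π) (a : GaussianInt) (n : ℕ) :
    ‖algebraMap GaussianInt K a‖ ≤ ‖algebraMap GaussianInt K π‖ ^ n ↔ π ^ n ∣ a := by
  have hp := h.norm_pi_pos
  constructor
  · intro h1
    induction n with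
    | zero => simp
    | succ n ih =>
      have h2 : ‖algebraMap GaussianInt K π‖ ^ (n + 1) ≤ ‖algebraMap GaussianInt K π‖ ^ n :=
        pow_le_pow_of_le_one hp.le h.norm_pi.le (Nat.le_succ n)
      obtain ⟨b, rfl⟩ := ih (h1.trans h2)
      rw [map_mul, norm_mul, map_pow, norm_pow, pow_succ] at h1
      have h3 : ‖algebraMap GaussianInt K b‖ ≤ ‖algebraMap GaussianInt K π‖ :=
        le_of_mul_le_mul_left h1 (pow_pos hp n)
      have h4 : π ∣ b := (h.norm_coe_lt_one_iff b).1 (lt_of_le_of_lt h3 h.norm_pi)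
      rw [pow_succ]
      exact mul_dvd_mul_left _ h4
  · rintro ⟨b, rfl⟩
    rw [map_mul, norm_mul, map_pow, norm_pow]
    have h1 : ‖algebraMap GaussianInt K π‖ ^ n * ‖algebraMap GaussianInt K b‖ ≤
        ‖algebraMap GaussianInt K π‖ ^ n * 1 :=
      mul_le_mul_of_nonneg_left (h.norm_coe_le_one b) (pow_nonneg hp.le n)
    linarith

/-- discreteness -/
theorem LocHyp.disc (h : LocHyp K π) {x : K} {n : ℤ}
    (hx : ‖x‖ < ‖algebraMap GaussianInt K π‖ ^ n) :
    ‖x‖ ≤ ‖algebraMap GaussianInt K π‖ ^ (n + 1) := by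
  have hp := h.norm_pi_pos
  by_cases h0 : x = 0
  · rw [h0, norm_zero]
    exact (zpow_pos hp _).le
  · obtain ⟨m, hm⟩ := h.unif x h0
    rw [hm] at hx ⊢
    have h1 : n < m := (zpow_lt_zpow_iff_right_of_lt_one₀ hp h.norm_pi).1 hx
    exact (zpow_le_zpow_iff_right_of_lt_one₀ hp h.norm_pi).2 (by omega)

/-- density of `ℤ[i]` -/
theorem LocHyp.exists_coe (h : LocHyp K π) {x : K} (hx : ‖x‖ ≤ 1) (n : ℕ) :
    ∃ a : GaussianInt, ‖x - algebraMap GaussianInt K a‖ ≤ ‖algebraMap GaussianInt K π‖ ^ n := by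
  have hp := h.norm_pi_pos
  induction n with
  | zero => exact ⟨0, by simpa using hx⟩
  | succ n ih =>
    obtain ⟨a, ha⟩ := ih
    have hpn : (algebraMap GaussianInt K π) ^ n ≠ 0 :=
      pow_ne_zero n (h.coe_ne h.prime.ne_zero)
    have hy : ‖(x - algebraMap GaussianInt K a) / (algebraMap GaussianInt K π) ^ n‖ ≤ 1 := by
      rw [norm_div, norm_pow, div_le_one (pow_pos hp n)]
      exact ha
    obtain ⟨b, hb⟩ := h.res _ hy
    have hb' := h.disc (n := 0) (by rw [zpow_zero]; exact hb)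
    rw [zero_add, zpow_one] at hb'
    refine ⟨a + π ^ n * b, ?_⟩
    have e : x - algebraMap GaussianInt K (a + π ^ n * b) =
        (algebraMap GaussianInt K π) ^ n *
        ((x - algebraMap GaussianInt K a) / (algebraMap GaussianInt K π) ^ n -
          algebraMap GaussianInt K b) := by
      rw [map_add, map_mul, map_pow, mul_sub, mul_div_cancel₀ _ hpn]
      ring
    rw [e, norm_mul, norm_pow, pow_succ]
    exact mul_le_mul_of_nonneg_left hb' (pow_nonneg hp.le n)

/-- Hensel's lemma for square roots -/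
theorem LocHyp.sqrt (h : LocHyp K π) {x : K} (hx : ‖x - 1‖ < ‖(4 : K)‖) :
    ∃ y : K, y ^ 2 = x ∧ ‖y - 1‖ * ‖(2 : K)‖ ≤ ‖x - 1‖ := by
  have := h.char0
  have := h.complete
  have h4 : (4 : K) ≠ 0 := by norm_num
  have hn4 : 0 < ‖(4 : K)‖ := norm_pos_iff.2 h4
  set u : K := (x - 1) / 4 with hu
  have hu1 : ‖u‖ < 1 := by
    rw [hu, norm_div, div_lt_one hn4]
    exact hx
  have hxu : x = 1 + 4 * u := by
    rw [hu]; field_simp; ring
  have hu0 : 0 ≤ ‖u‖ := norm_nonneg u
  -- the sequence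
  set z : ℕ → K := fun n => Nat.rec (0 : K) (fun _ w => u - w ^ 2) n with hz
  have hz0 : z 0 = 0 := rfl
  have hzs : ∀ n, z (n + 1) = u - z n ^ 2 := fun n => rfl
  have hzb : ∀ n, ‖z n‖ ≤ ‖u‖ := by
    intro n
    induction n with
    | zero => rw [hz0, norm_zero]; exact hu0
    | succ n ih =>
      rw [hzs, sub_eq_add_neg]
      refine (h.ultra _ _).trans (max_le le_rfl ?_)
      rw [norm_neg, norm_pow]
      calc ‖z n‖ ^ 2 = ‖z n‖ * ‖z n‖ := by ring
        _ ≤ ‖u‖ * 1 := mul_le_mul ih (ih.trans hu1.le) (norm_nonneg _) hu0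
        _ = ‖u‖ := mul_one _
  have hzc : ∀ n, ‖z n - z (n + 1)‖ ≤ 1 * ‖u‖ ^ n := by
    intro n
    induction n with
    | zero =>
      rw [hzs, hz0]
      simp only [pow_zero, mul_one]
      have : ‖(0 : K) - (u - 0 ^ 2)‖ = ‖u‖ := by
        rw [zero_sub, norm_neg]; simp
      rw [this]
      exact hu1.le
    | succ n ih =>
      rw [hzs (n + 1), hzs n]
      have e : u - z n ^ 2 - (u - (u - z n ^ 2) ^ 2) = -((z n - z (n + 1)) * (z n + z (n + 1))) := by
        rw [hzs n]; ring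
      rw [e, norm_neg, norm_mul]
      have h1 : ‖z n + z (n + 1)‖ ≤ ‖u‖ := (h.ultra _ _).trans (max_le (hzb n) (hzb (n + 1)))
      calc ‖z n - z (n + 1)‖ * ‖z n + z (n + 1)‖ ≤ (1 * ‖u‖ ^ n) * ‖u‖ :=
            mul_le_mul ih h1 (norm_nonneg _) (by positivity)
        _ = 1 * ‖u‖ ^ (n + 1) := by ring
  have hcau : CauchySeq z := by
    refine cauchySeq_of_le_geometric ‖u‖ 1 hu1 fun n => ?_
    rw [dist_eq_norm]
    exact hzc n
  obtain ⟨w, hw⟩ := cauchySeq_tendsto_of_complete hcau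
  have hw1 : w = u - w ^ 2 := by
    have h1 : Filter.Tendsto (fun n => z (n + 1)) Filter.atTop (nhds w) :=
      hw.comp (Filter.tendsto_add_atTop_nat 1)
    have h2 : Filter.Tendsto (fun n => z (n + 1)) Filter.atTop (nhds (u - w ^ 2)) := by
      have h3 : Filter.Tendsto (fun n => u - z n ^ 2) Filter.atTop (nhds (u - w ^ 2)) :=
        tendsto_const_nhds.sub (hw.pow 2)
      exact h3
    exact tendsto_nhds_unique h1 h2
  have hwb : ‖w‖ ≤ ‖u‖ := le_of_tendsto hw.norm (Filter.Eventually.of_forall hzb)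
  refine ⟨1 + 2 * w, ?_, ?_⟩
  · rw [hxu]
    linear_combination 4 * hw1
  · have e1 : (1 + 2 * w) - 1 = 2 * w := by ring
    have e2 : x - 1 = 4 * u := by rw [hxu]; ring
    have e3 : ‖(4 : K)‖ = ‖(2 : K)‖ * ‖(2 : K)‖ := by
      rw [← norm_mul]; norm_num
    rw [e1, e2, norm_mul, norm_mul, e3]
    have h1 : ‖(2 : K)‖ * ‖w‖ ≤ ‖(2 : K)‖ * ‖u‖ := mul_le_mul_of_nonneg_left hwb (norm_nonneg _)
    have h2 := mul_le_mul_of_nonneg_right h1 (norm_nonneg (2 : K))
    linarith

theorem LocHyp.mk_eq_iff (h : LocHyp K π) (a b : GaussianInt) :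
    (Ideal.Quotient.mk (Ideal.span {π}) a = Ideal.Quotient.mk _ b) ↔
      ‖algebraMap GaussianInt K a - algebraMap GaussianInt K b‖ < 1 := by
  rw [Ideal.Quotient.eq, Ideal.mem_span_singleton, ← h.norm_coe_lt_one_iff, map_sub]

theorem LocHyp.rd_spec (h : LocHyp K π) {x : K} {a : GaussianInt}
    (hx : ‖x - algebraMap GaussianInt K a‖ < 1) : rd K π x = Ideal.Quotient.mk _ a := by
  have hex : ∃ a : GaussianInt, ‖x - algebraMap GaussianInt K a‖ < 1 := ⟨a, hx⟩
  unfold rd
  rw [dif_pos hex, h.mk_eq_iff]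
  have h1 := Classical.choose_spec hex
  have e : algebraMap GaussianInt K (Classical.choose hex) - algebraMap GaussianInt K a =
      (x - algebraMap GaussianInt K a) + -(x - algebraMap GaussianInt K (Classical.choose hex)) := by
    ring
  rw [e]
  refine lt_of_le_of_lt (h.ultra _ _) (max_lt hx ?_)
  rw [norm_neg]
  exact h1

theorem LocHyp.rd_coe (h : LocHyp K π) (a : GaussianInt) :
    rd K π (algebraMap GaussianInt K a) = Ideal.Quotient.mk _ a := by
  apply h.rd_spec
  rw [sub_self, norm_zero]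
  exact one_pos

theorem LocHyp.rd_add (h : LocHyp K π) {x y : K} (hx : ‖x‖ ≤ 1) (hy : ‖y‖ ≤ 1) :
    rd K π (x + y) = rd K π x + rd K π y := by
  obtain ⟨a, ha⟩ := h.res x hx
  obtain ⟨b, hb⟩ := h.res y hy
  rw [h.rd_spec ha, h.rd_spec hb, ← map_add]
  apply h.rd_spec
  have e : x + y - algebraMap GaussianInt K (a + b) =
      (x - algebraMap GaussianInt K a) + (y - algebraMap GaussianInt K b) := by
    rw [map_add]; ring
  rw [e]
  exact lt_of_le_of_lt (h.ultra _ _) (max_lt ha hb)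

theorem LocHyp.rd_mul (h : LocHyp K π) {x y : K} (hx : ‖x‖ ≤ 1) (hy : ‖y‖ ≤ 1) :
    rd K π (x * y) = rd K π x * rd K π y := by
  obtain ⟨a, ha⟩ := h.res x hx
  obtain ⟨b, hb⟩ := h.res y hy
  rw [h.rd_spec ha, h.rd_spec hb, ← map_mul]
  apply h.rd_spec
  have e : x * y - algebraMap GaussianInt K (a * b) =
      x * (y - algebraMap GaussianInt K b) +
        (x - algebraMap GaussianInt K a) * algebraMap GaussianInt K b := by
    rw [map_mul]; ring
  rw [e]
  refine lt_of_le_of_lt (h.ultra _ _) (max_lt ?_ ?_)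
  · rw [norm_mul]
    calc ‖x‖ * ‖y - algebraMap GaussianInt K b‖ ≤ 1 * ‖y - algebraMap GaussianInt K b‖ :=
          mul_le_mul_of_nonneg_right hx (norm_nonneg _)
      _ < 1 := by rw [one_mul]; exact hb
  · rw [norm_mul]
    calc ‖x - algebraMap GaussianInt K a‖ * ‖algebraMap GaussianInt K b‖ ≤
          ‖x - algebraMap GaussianInt K a‖ * 1 :=
          mul_le_mul_of_nonneg_left (h.norm_coe_le_one b) (norm_nonneg _)
      _ < 1 := by rw [mul_one]; exact ha

theorem LocHyp.rd_eq_iff (h : LocHyp K π) {x y : K} (hx : ‖x‖ ≤ 1) (hy : ‖y‖ ≤ 1) :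
    rd K π x = rd K π y ↔ ‖x - y‖ < 1 := by
  obtain ⟨a, ha⟩ := h.res x hx
  obtain ⟨b, hb⟩ := h.res y hy
  rw [h.rd_spec ha, h.rd_spec hb, h.mk_eq_iff]
  constructor
  · intro h1
    have e : x - y = (x - algebraMap GaussianInt K a) +
        ((algebraMap GaussianInt K a - algebraMap GaussianInt K b) +
          -(y - algebraMap GaussianInt K b)) := by ring
    rw [e]
    refine lt_of_le_of_lt (h.ultra _ _) (max_lt ha ?_)
    refine lt_of_le_of_lt (h.ultra _ _) (max_lt h1 ?_)
    rw [norm_neg]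
    exact hb
  · intro h1
    have e : algebraMap GaussianInt K a - algebraMap GaussianInt K b =
        -(x - algebraMap GaussianInt K a) + ((x - y) + (y - algebraMap GaussianInt K b)) := by ring
    rw [e]
    refine lt_of_le_of_lt (h.ultra _ _) (max_lt ?_ ?_)
    · rw [norm_neg]
      exact ha
    · exact lt_of_le_of_lt (h.ultra _ _) (max_lt h1 hb)

end RSD

end GWA
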